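import Mathlib
import Pool.Graph.R_pool_sql_team_seeded_64922ed1.X235.PPC.Main

/-!
# pp-constructions from structures with a finite domain and an arbitrary signature

Minor-preserving maps, also those which are defined for small arities only, give pp-constructions,
without any restriction on the signatures.
-/

set_option autoImplicit false

namespace Pool.Agent.KS6_1.PPO

open Pool.Agent.X235.PPC

/-- The polymorphisms with a given finite index set are defined by one pp-formula, also if the
signature is infinite. -/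
theorem exists_polF (A : Str) (I : Type) [Finite I] {n : ℕ} (i₀ : Fin n)
    (pos : (I → A.dom) → Fin n) : ∃ φ : PP A.sym A.ar n, ∀ v : Fin n → A.dom,
      φ.Holds A v ↔ IsPol A I (fun y => v (pos y)) := by
  classical
  have h1 : ∀ g : {g : (I → A.dom) → A.dom // ¬ IsPol A I g},
      ∃ q : AtomIdx A I, ¬ A.rel q.1 (fun k => g.1 (fun i => (q.2 i).1 k)) := by
    rintro ⟨g, hg⟩
    unfold IsPol at hg
    push Not at hg
    obtain ⟨s, x, hx, hn⟩ := hg
    exact ⟨⟨s, fun i => ⟨x i, hx i⟩⟩, hn⟩
  choose q hq using h1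
  refine ⟨conj i₀ {g : (I → A.dom) → A.dom // ¬ IsPol A I g}
    (fun g => .rel (q g).1 (fun k => pos (fun i => ((q g).2 i).1 k))), fun v => ?_⟩
  rw [holds_conj]
  constructor
  · intro h
    by_contra hc
    exact hq ⟨_, hc⟩ (h ⟨_, hc⟩)
  · intro h g
    exact h (q g).1 (fun i => ((q g).2 i).1) (fun i => ((q g).2 i).2)

/-- A canonical homomorphism gives a pp-construction, for arbitrary signatures. -/
theorem pp_of_good' {A B : Str} (h : ∃ h, ∀ s, GoodAt A B h s) :
    PPConstructs A B := by
  classical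
  obtain ⟨hh, hgood⟩ := h
  obtain ⟨N, ⟨e⟩⟩ := Finite.exists_equiv_fin (B.dom → A.dom)
  have hN : 0 < N := by
    have := (e (Classical.arbitrary _)).isLt
    omega
  have hRf : ∀ s, ∃ M, Nonempty ((Tup B s → A.dom) ≃ Fin M) := fun s =>
    Finite.exists_equiv_fin _
  choose M hM using hRf
  let eM : ∀ s, (Tup B s → A.dom) ≃ Fin (M s) := fun s => (hM s).some
  -- positions
  let i₀ : ∀ s, Fin (B.ar s * N + M s) := fun s =>
    Fin.castAdd (M s) ⟨0, Nat.mul_pos (B.pos s) hN⟩
  let pL : ∀ s, Fin (B.ar s) → (B.dom → A.dom) → Fin (B.ar s * N + M s) := fun s i x =>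
    Fin.castAdd (M s) (finProdFinEquiv (i, e x))
  let pR : ∀ s, (Tup B s → A.dom) → Fin (B.ar s * N + M s) := fun s y =>
    Fin.natAdd (B.ar s * N) (eM s y)
  have hpF := fun s => exists_polF A (Tup B s) (i₀ s) (pR s)
  choose φ hφ using hpF
  let ψ : ∀ s : B.sym, PP A.sym A.ar (B.ar s * N) := fun s =>
    exN (M s) (.and (φ s)
      (conj (i₀ s) (Fin (B.ar s) × (B.dom → A.dom))
        (fun z => .eq (pL s z.1 z.2) (pR s (fun r => z.2 (r.1 z.1))))))
  have hψ : ∀ (s : B.sym) (x : Fin (B.ar s) → Fin N → A.dom), (ψ s).Holds A (concat x) ↔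
      ∃ g : (Tup B s → A.dom) → A.dom, IsPol A (Tup B s) g ∧
        ∀ i (z : B.dom → A.dom), x i (e z) = g (fun r => z (r.1 i)) := by
    intro s x
    change (exN (M s) _).Holds A (concat x) ↔ _
    rw [holds_exN]
    have hL : ∀ (w : Fin (M s) → A.dom) i z,
        (Fin.append (concat x) w) (pL s i z) = x i (e z) := by
      intro w i z
      simp only [pL]
      rw [Fin.append_left]
      simp [concat]
    have hR : ∀ (w : Fin (M s) → A.dom) y,
        (Fin.append (concat x) w) (pR s y) = w (eM s y) := by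
      intro w y
      simp only [pR]
      rw [Fin.append_right]
    constructor
    · rintro ⟨w, h1, h2⟩
      rw [hφ] at h1
      rw [holds_conj] at h2
      refine ⟨fun y => w (eM s y), ?_, ?_⟩
      · simpa only [hR] using h1
      · intro i z
        have h3 : (Fin.append (concat x) w) (pL s i z) =
            (Fin.append (concat x) w) (pR s _) := h2 (i, z)
        rw [hL, hR] at h3
        exact h3
    · rintro ⟨g, h1, h2⟩
      refine ⟨fun j => g ((eM s).symm j), ?_, ?_⟩
      · rw [hφ]
        simpa only [hR, Equiv.symm_apply_apply] using h1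
      · rw [holds_conj]
        rintro ⟨i, z⟩
        change (Fin.append (concat x) _) (pL s i z) = (Fin.append (concat x) _) (pR s _)
        rw [hL, hR, h2, Equiv.symm_apply_apply]
  refine ⟨N, hN, ψ, ⟨fun c => hh (fun z => c (e z)), ?_⟩, ⟨fun b => fun j => (e.symm j) b, ?_⟩⟩
  · intro s x hx
    exact hgood s (fun i z => x i (e z)) ((hψ s x).mp hx)
  · intro s r hr
    change (ψ s).Holds A (concat (fun i => fun j => (e.symm j) (r i)))
    rw [hψ]
    refine ⟨fun y => y ⟨r, hr⟩, fun s' x hx => hx _, fun i z => ?_⟩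
    rw [Equiv.symm_apply_apply]

theorem pp_iff_minorMap' {A B : Str} : PPConstructs A B ↔ MinorMap A B :=
  ⟨minorMap_of_pp, fun h => pp_of_good' (good_of_minorMap h)⟩

theorem PPConstructs.trans {A B C : Str} (h1 : PPConstructs A B) (h2 : PPConstructs B C) :
    PPConstructs A C :=
  pp_iff_minorMap'.2 ((minorMap_of_pp h1).trans (minorMap_of_pp h2))

/-- Compactness: if `B` has no pp-construction from `A`, then some reduct of `B` with finitely many
relations has none. -/
theorem exists_code' {A B : Str} (h : ¬ PPConstructs A B) :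
    ∃ c : Code, PPConstructs B c.str ∧ ¬ PPConstructs A c.str := by
  classical
  obtain ⟨n, ⟨e⟩⟩ := Finite.exists_equiv_fin B.dom
  have hn : 0 < n := by
    have := (e (Classical.arbitrary _)).isLt
    omega
  let n' : ℕ+ := ⟨n, hn⟩
  let e' : B.dom ≃ Fin n' := e
  have h1 : ∀ hh, ∃ s, ¬ GoodAt A B hh s := by
    intro hh
    by_contra hc
    push Not at hc
    exact h (pp_of_good' ⟨hh, hc⟩)
  choose s hs using h1
  obtain ⟨k, ⟨f⟩⟩ := Finite.exists_equiv_fin (((B.dom → A.dom) → A.dom) → B.dom)
  refine ⟨code B e' (fun i => s (f.symm i)), pp_code _ _ _, fun hc => ?_⟩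
  obtain ⟨h', hg⟩ := good_of_minorMap (minorMap_of_pp hc)
  have h2 := goodAt_of_code e' (fun i => s (f.symm i)) h' hg
    (f (fun u => e'.symm (h' (fun z' => u (fun b => z' (e' b))))))
  simp only [Equiv.symm_apply_apply] at h2
  exact hs _ h2

/-- Countably many obstructions for every structure with a finite domain. -/
theorem countable_obstructions (A : Str) : ∃ (ι : Type) (_ : Countable ι) (C : ι → Str),
    (∀ i, (C i).FinSig) ∧ ∀ B : Str, ¬ PPConstructs A B ↔ ∃ i, PPConstructs B (C i) := by
  refine ⟨{c : Code // ¬ PPConstructs A c.str}, Subtype.countable, fun c => c.1.str,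
    fun c => inferInstanceAs (Finite c.1.str.sym), fun B => ⟨fun h => ?_, ?_⟩⟩
  · obtain ⟨c, h1, h2⟩ := exists_code' h
    exact ⟨⟨c, h2⟩, h1⟩
  · rintro ⟨i, hi⟩ hB
    exact i.2 (PPConstructs.trans hB hi)

/-- There is a minor-preserving map between the polymorphisms of arity less than `N`. -/
def MinorBelow (N : ℕ) (A B : Str) : Prop :=
  ∃ ξ : ∀ n, n < N → Pol A n → Pol B n, ∀ (n m : ℕ) (hn : n < N) (hm : m < N)
    (π : Fin n → Fin m) (f : Pol A n), ξ m hm (f.minor π) = (ξ n hn f).minor π

theorem MinorBelow.mono {N M : ℕ} {A B : Str} (hNM : N ≤ M) (h : MinorBelow M A B) :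
    MinorBelow N A B := by
  obtain ⟨ξ, hξ⟩ := h
  exact ⟨fun n hn => ξ n (hn.trans_le hNM), fun n m hn hm π f => hξ n m _ _ π f⟩

theorem MinorBelow.trans {N : ℕ} {A B C : Str} (h1 : MinorBelow N A B) (h2 : MinorMap B C) :
    MinorBelow N A C := by
  obtain ⟨ξ, hξ⟩ := h1
  obtain ⟨η, hη⟩ := h2
  refine ⟨fun n hn f => η n (ξ n hn f), fun n m hn hm π f => ?_⟩
  show η m (ξ m hm (f.minor π)) = (η n (ξ n hn f)).minor π
  rw [hξ n m hn hm, hη]

/-- A minor-preserving map for small arities gives a map which is good at all small relations. -/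
theorem good_of_minorBelow {A B : Str} {N : ℕ} (hN : Nat.card B.dom < N)
    (h : MinorBelow N A B) : ∃ h, ∀ s, Nat.card (Tup B s) < N → GoodAt A B h s := by
  classical
  obtain ⟨ξ, hξ⟩ := h
  let eB := Finite.equivFin B.dom
  let toP : ∀ u : (B.dom → A.dom) → A.dom, IsPol A B.dom u → Pol A (Nat.card B.dom) := fun u hu =>
    ⟨fun x => u (fun b => x (eB b)), by
      intro s x hx
      exact hu s (fun b => x (eB b)) (fun b => hx (eB b))⟩
  refine ⟨fun u => if hu : IsPol A B.dom u then (ξ _ hN (toP u hu)).1 eB.symm else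
    Classical.arbitrary B.dom, fun s hs x ⟨g, hg, hgx⟩ => ?_⟩
  let eR := Finite.equivFin (Tup B s)
  have hx : ∀ i, IsPol A B.dom (x i) := by
    intro i s' y hy
    simp only [hgx]
    exact hg s' (fun r => y (r.1 i)) (fun r => hy _)
  let g' : Pol A (Nat.card (Tup B s)) := ⟨fun y => g (fun r => y (eR r)), by
    intro s' y hy
    exact hg s' (fun r => y (eR r)) (fun r => hy _)⟩
  have hmin : ∀ i, toP (x i) (hx i) = g'.minor (fun j => eB ((eR.symm j).1 i)) := by
    intro i
    apply Subtype.ext
    funext z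
    change x i (fun b => z (eB b)) = g (fun r => z (eB ((eR.symm (eR r)).1 i)))
    rw [hgx i]
    simp only [Equiv.symm_apply_apply]
  have hkey : ∀ i, (ξ _ hN (toP (x i) (hx i))).1 eB.symm =
      (ξ _ hs g').1 (fun j => (eR.symm j).1 i) := by
    intro i
    rw [hmin i, hξ _ _ hs hN]
    change (ξ _ hs g').1 (fun j => eB.symm (eB ((eR.symm j).1 i))) = _
    simp only [Equiv.symm_apply_apply]
  simp only [hx, dif_pos, hkey]
  exact (ξ _ hs g').2 s (fun j => (eR.symm j).1) (fun j => (eR.symm j).2)

/-- If there are minor-preserving maps for the polymorphisms of arity less than `N`, for every `N`,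
then there is a pp-construction. -/
theorem pp_of_minorBelow {A B : Str} (h : ∀ N, MinorBelow N A B) : PPConstructs A B := by
  classical
  have h1 : ∀ N : ℕ, ∃ hh : ((B.dom → A.dom) → A.dom) → B.dom,
      ∀ s, Nat.card (Tup B s) < N + Nat.card B.dom + 1 → GoodAt A B hh s := fun N =>
    good_of_minorBelow (by omega) (h (N + Nat.card B.dom + 1))
  choose hh hg using h1
  obtain ⟨h₀, hinf⟩ := Finite.exists_infinite_fiber hh
  refine pp_of_good' ⟨h₀, fun s => ?_⟩
  have hinf' : (hh ⁻¹' {h₀}).Infinite := Set.infinite_coe_iff.1 hinf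
  obtain ⟨N, hN, hlt⟩ := hinf'.exists_gt (Nat.card (Tup B s))
  have := hg N s (by omega)
  rw [show hh N = h₀ from hN] at this
  exact this

end Pool.Agent.KS6_1.PPO
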