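import Mathlib
import Pool.Agent.KS6_1.PPO.Comp

/-!
# Directed cycles of prime length and the two-element path
-/

set_option autoImplicit false

namespace Pool.Agent.KS6_1.PPO

open Pool.Agent.X235.PPC

/-- `P₁`: one element and one binary relation, which is empty. -/
def P1 : Str where
  dom := Fin 1
  finDom := inferInstance
  neDom := inferInstance
  sym := Unit
  ar _ := 2
  pos _ := by norm_num
  rel _ _ := False

/-- The directed cycle of length `n + 1`. -/
def Cycle (n : ℕ) : Str where
  dom := ZMod (n + 1)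
  finDom := inferInstance
  neDom := inferInstance
  sym := Unit
  ar _ := 2
  pos _ := by norm_num
  rel _ x := x 1 = x 0 + 1

/-! ### Every structure is pp-constructible from `P₁` or pp-constructs `P₂` -/

/-- endomorphisms -/
def IsEnd (A : Str) (e : A.dom → A.dom) : Prop := ∀ s x, A.rel s x → A.rel s (fun k => e (x k))

theorem isEnd_id (A : Str) : IsEnd A id := fun _ _ h => h

theorem IsEnd.comp {A : Str} {e f : A.dom → A.dom} (he : IsEnd A e) (hf : IsEnd A f) :
    IsEnd A (fun x => e (f x)) := fun s x h => he s _ (hf s x h)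

theorem IsEnd.of_pol {A : Str} {n : ℕ} (f : Pol A n) : IsEnd A (fun x => f.1 (fun _ => x)) :=
  fun s x h => f.2 s (fun _ => x) (fun _ => h)

theorem exists_min_end (A : Str) : ∃ e, IsEnd A e ∧ ∀ g, IsEnd A g →
    (Set.range e).ncard ≤ (Set.range g).ncard := by
  classical
  have h : ∃ n, ∃ e, IsEnd A e ∧ (Set.range e).ncard = n := ⟨_, id, isEnd_id A, rfl⟩
  obtain ⟨e, he, hn⟩ := Nat.find_spec h
  refine ⟨e, he, fun g hg => ?_⟩
  rw [hn]
  exact Nat.find_min' h ⟨g, hg, rfl⟩

theorem isPol_P2 {n : ℕ} (G : (Fin n → Fin 2) → Fin 2) (h0 : G (fun _ => 0) = 0)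
    (h1 : G (fun _ => 1) = 1) : IsPol P2 (Fin n) G := by
  intro s x hx
  have e0 : (fun i => x i (0 : Fin 2)) = fun _ => (0 : Fin 2) := funext fun i => (hx i).1
  have e1 : (fun i => x i (1 : Fin 2)) = fun _ => (1 : Fin 2) := funext fun i => (hx i).2
  exact ⟨(congrArg G e0).trans h0, (congrArg G e1).trans h1⟩

/-- If some endomorphism is constant, the structure has a pp-construction from `P₁`. -/
theorem pp_P1_of_const {A : Str} {a : A.dom} (ha : IsEnd A (fun _ => a)) : PPConstructs P1 A := by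
  apply pp_of_good'
  refine ⟨fun _ => a, fun s x => ?_⟩
  rintro ⟨g, hg, -⟩
  by_cases hT : ∃ r, A.rel s r
  · obtain ⟨r, hr⟩ := hT
    exact ha s r hr
  · exfalso
    exact hg () (fun _ _ => (0 : Fin 1)) (fun i => hT ⟨i.1, i.2⟩)

theorem pp_P2_of_min {A : Str} {e : A.dom → A.dom} (he : IsEnd A e)
    (hmin : ∀ g, IsEnd A g → (Set.range e).ncard ≤ (Set.range g).ncard) {p q : A.dom}
    (hpq : e p ≠ e q) : PPConstructs A P2 := by
  classical
  apply pp_iff_minorMap'.2
  -- the unary part of a polymorphism is injective on the image of `e`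
  have key : ∀ (n : ℕ) (f : Pol A n), e (f.1 (fun _ => e p)) ≠ e (f.1 (fun _ => e q)) := by
    intro n f heq
    have hu : IsEnd A (fun x => e (f.1 (fun _ => e x))) := he.comp ((IsEnd.of_pol f).comp he)
    have h1 := hmin _ hu
    have h2 : Set.range (fun x => e (f.1 (fun _ => e x))) =
        (fun c => e (f.1 (fun _ => c))) '' (Set.range e) := by
      ext y; simp
    rw [h2] at h1
    have h3 : Set.InjOn (fun c => e (f.1 (fun _ => c))) (Set.range e) := by
      exact Set.injOn_of_ncard_image_eq (le_antisymm (Set.ncard_image_le (Set.toFinite _)) h1)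
        (Set.toFinite _)
    exact hpq (h3 ⟨p, rfl⟩ ⟨q, rfl⟩ heq)
  refine ⟨fun n f => ⟨((fun y : Fin n → Fin 2 =>
    if e (f.1 (fun i => if y i = (0 : Fin 2) then e p else e q)) = e (f.1 (fun _ => e q)) then
      (1 : Fin 2) else (0 : Fin 2)) : (Fin n → Fin 2) → Fin 2), ?_⟩, ?_⟩
  · apply isPol_P2
    · simp only [if_true]
      rw [if_neg (key n f)]
    · simp
  · intro n m π f
    rfl

/-- Every structure with a finite domain has a pp-construction from `P₁`, or it pp-constructs
`P₂`. -/
theorem dichotomy (A : Str) : PPConstructs P1 A ∨ PPConstructs A P2 := by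
  obtain ⟨e, he, hmin⟩ := exists_min_end A
  by_cases h : ∃ p q, e p ≠ e q
  · obtain ⟨p, q, hpq⟩ := h
    exact Or.inr (pp_P2_of_min he hmin hpq)
  · push Not at h
    left
    have a : A.dom := Classical.arbitrary _
    apply pp_P1_of_const (a := e a)
    have : (fun _ => e a) = e := funext fun x => h a x
    rw [this]
    exact he

/-- `P₁` does not pp-construct `P₂`. -/
theorem not_P1_P2 : ¬ PPConstructs P1 P2 := by
  intro h
  obtain ⟨ξ, hξ⟩ := minorMap_of_pp h
  let f : Pol P1 1 := ⟨fun _ => (0 : Fin 1), fun s x hx => (hx 0).elim⟩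
  let f2 : Pol P1 2 := ⟨fun _ => (0 : Fin 1), fun s x hx => (hx 0).elim⟩
  -- the unary operation would be constant
  have h1 : f.minor (m := 2) ![0] = f.minor (m := 2) ![1] := rfl
  have h2 : (ξ 1 f).minor (m := 2) ![0] = (ξ 1 f).minor (m := 2) ![1] :=
    (hξ _ _ _ _).symm.trans ((congrArg (ξ 2) h1).trans (hξ _ _ _ _))
  have h3 := congrFun (congrArg (fun g : Pol P2 2 => g.1) h2) (![0, 1] : Fin 2 → Fin 2)
  have h4 := (ξ 1 f).2 () (fun _ => (![0, 1] : Fin 2 → Fin 2)) (fun _ => ⟨rfl, rfl⟩)
  obtain ⟨F, hF⟩ : ∃ F : (Fin 1 → Fin 2) → Fin 2, F = (ξ 1 f).1 := ⟨_, rfl⟩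
  have e0 : (fun i => (![0, 1] : Fin 2 → Fin 2) ((![0] : Fin 1 → Fin 2) i)) = fun _ => 0 := by
    funext i; fin_cases i; rfl
  have e1 : (fun i => (![0, 1] : Fin 2 → Fin 2) ((![1] : Fin 1 → Fin 2) i)) = fun _ => 1 := by
    funext i; fin_cases i; rfl
  have h3' : F (fun i => (![0, 1] : Fin 2 → Fin 2) ((![0] : Fin 1 → Fin 2) i)) =
      F (fun i => (![0, 1] : Fin 2 → Fin 2) ((![1] : Fin 1 → Fin 2) i)) := by
    rw [hF]; exact h3
  rw [e0, e1] at h3'
  have h4a : F (fun _ => 0) = 0 := by rw [hF]; exact h4.1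
  have h4b : F (fun _ => 1) = 1 := by rw [hF]; exact h4.2
  rw [h4a, h4b] at h3'
  exact absurd h3' (by decide)

/-! ### Directed cycles -/

/-- the `ZMod p`-ary function attached to `f` and a tuple -/
def gf {p n : ℕ} (f : (Fin n → Fin 2) → Fin 2) (x : Fin n → ZMod p) : (ZMod p → Fin 2) → Fin 2 :=
  fun z => f (fun i => z (x i))

/-- translation -/
def sh {p : ℕ} (t : ZMod p) (g : (ZMod p → Fin 2) → Fin 2) : (ZMod p → Fin 2) → Fin 2 :=
  fun z => g (fun c => z (c + t))

theorem sh_sh {p : ℕ} (s t : ZMod p) (g : (ZMod p → Fin 2) → Fin 2) :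
    sh s (sh t g) = sh (s + t) g := by
  funext z
  show g (fun c => z (c + t + s)) = g (fun c => z (c + (s + t)))
  congr 1
  funext c
  congr 1
  ring

theorem sh_zero {p : ℕ} (g : (ZMod p → Fin 2) → Fin 2) : sh 0 g = g := by
  funext z
  simp [sh]

theorem gf_add {p n : ℕ} (f : (Fin n → Fin 2) → Fin 2) (x : Fin n → ZMod p) (t : ZMod p) :
    gf f (fun i => x i + t) = sh t (gf f x) := rfl

/-- the functions with trivial stabiliser -/
def Free {p : ℕ} (g : (ZMod p → Fin 2) → Fin 2) : Prop := ∀ t, sh t g = g → t = 0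

theorem Free.sh {p : ℕ} {g : (ZMod p → Fin 2) → Fin 2} (hg : Free g) (t : ZMod p) :
    Free (sh t g) := by
  intro s hs
  apply hg
  have h1 : PPO.sh (-t) (PPO.sh s (PPO.sh t g)) = PPO.sh (-t) (PPO.sh t g) := by rw [hs]
  rw [sh_sh, sh_sh, sh_sh] at h1
  rw [show -t + s + t = s by ring, show -t + t = 0 by ring, sh_zero] at h1
  exact h1

theorem free_gf {p n : ℕ} (hp : p.Prime) (hn : n < p) (f : (Fin n → Fin 2) → Fin 2)
    (h0 : f (fun _ => 0) = 0) (h1 : f (fun _ => 1) = 1) (x : Fin n → ZMod p) :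
    Free (gf f x) := by
  have : Fact p.Prime := ⟨hp⟩
  have : NeZero p := ⟨hp.ne_zero⟩
  intro t ht
  by_contra htne
  -- all translations fix `gf f x`
  have hall : ∀ k : ℕ, sh ((k : ZMod p) * t) (gf f x) = gf f x := by
    intro k
    induction k with
    | zero => simp [sh_zero]
    | succ k ih =>
      rw [show ((k + 1 : ℕ) : ZMod p) * t = t + (k : ZMod p) * t by push_cast; ring, ← sh_sh, ih, ht]
  have hall' : ∀ s : ZMod p, sh s (gf f x) = gf f x := by
    intro s
    have := hall (s * t⁻¹).val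
    rw [ZMod.natCast_zmod_val, mul_assoc, inv_mul_cancel₀ htne, mul_one] at this
    exact this
  -- some value is not taken by `x`
  obtain ⟨c, hc⟩ : ∃ c, ∀ i, x i ≠ c := by
    by_contra hcon
    push Not at hcon
    have h2 : Function.Surjective x := hcon
    have h3 := Fintype.card_le_of_surjective x h2
    rw [ZMod.card, Fintype.card_fin] at h3
    omega
  -- changing one coordinate does not change the value
  have h4 : ∀ (z : ZMod p → Fin 2) (d : ZMod p) (v : Fin 2),
      gf f x (Function.update z d v) = gf f x z := by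
    intro z d v
    have e1 := congrFun (hall' (d - c)) (Function.update z d v)
    have e2 := congrFun (hall' (d - c)) z
    rw [← e1, ← e2]
    show f (fun i => (Function.update z d v) (x i + (d - c))) = f (fun i => z (x i + (d - c)))
    congr 1
    funext i
    rw [Function.update_of_ne]
    intro h
    apply hc i
    have : x i = c := by
      have h5 : x i + (d - c) - (d - c) = d - (d - c) := by rw [h]
      rw [add_sub_cancel_right] at h5
      rw [h5]; ring
    exact this
  have h5 : ∀ S : Finset (ZMod p), gf f x (fun d => if d ∈ S then 1 else 0) = gf f x (fun _ => 0) := by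
    classical
    intro S
    induction S using Finset.induction_on with
    | empty => simp
    | insert a S ha ih =>
      rw [← ih, ← h4 (fun d => if d ∈ S then 1 else 0) a 1]
      congr 1
      funext d
      by_cases hd : d = a
      · subst hd
        simp
      · rw [Function.update_of_ne hd]
        simp [hd]
  have h6 := h5 Finset.univ
  simp only [Finset.mem_univ, if_true] at h6
  rw [show gf f x (fun _ => 1) = 1 from h1, show gf f x (fun _ => 0) = 0 from h0] at h6
  exact absurd h6 (by decide)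

/-- An equivariant map from the functions with trivial stabiliser. -/
theorem exists_equivariant (p : ℕ) : ∃ Φ : ((ZMod p → Fin 2) → Fin 2) → ZMod p,
    ∀ g, Free g → ∀ t, Φ (sh t g) = Φ g + t := by
  classical
  let st : Setoid ((ZMod p → Fin 2) → Fin 2) :=
    { r := fun g h => ∃ t, h = sh t g
      iseqv := ⟨fun g => ⟨0, (sh_zero g).symm⟩,
        fun {g h} ⟨t, ht⟩ => ⟨-t, by rw [ht, sh_sh, neg_add_cancel, sh_zero]⟩,
        fun {g h k} ⟨t, ht⟩ ⟨s, hs⟩ => ⟨s + t, by rw [hs, ht, sh_sh]⟩⟩ }
  have hrep : ∀ g : (ZMod p → Fin 2) → Fin 2, ∃ t, g = sh t (Quotient.out (Quotient.mk st g)) :=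
    fun g => Quotient.mk_out (s := st) g
  choose τ hτ using hrep
  refine ⟨τ, fun g hg t => ?_⟩
  have hq : Quotient.mk st (sh t g) = Quotient.mk st g :=
    (Quotient.sound (s := st) ⟨t, rfl⟩ : Quotient.mk st g = Quotient.mk st (sh t g)).symm
  have h1 := hτ (sh t g)
  rw [hq] at h1
  set r := Quotient.out (Quotient.mk st g) with hr
  have h2 := hτ g
  rw [← hr] at h2
  have hfr : Free r := by
    have h2' : sh (-(τ g)) g = r := by
      have h := congrArg (sh (-(τ g))) h2
      rw [sh_sh, neg_add_cancel, sh_zero] at h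
      exact h
    have := hg.sh (-(τ g))
    rw [h2'] at this
    exact this
  have h3 : sh (t + τ g) r = sh (τ (sh t g)) r := by
    rw [← h1, ← sh_sh, ← h2]
  have h4 : sh (-(τ g) + -t + τ (sh t g)) r = r := by
    rw [← sh_sh, ← h3, sh_sh]
    rw [show -(τ g) + -t + (t + τ g) = 0 by ring, sh_zero]
  have h5 := hfr _ h4
  have h6 : τ (sh t g) = τ g + t := by
    have : τ (sh t g) = (-(τ g) + -t + τ (sh t g)) + (τ g + t) := by ring
    rw [h5, zero_add] at this
    exact this
  exact h6

/-- Up to arities less than `p` the polymorphisms of `P₂` map to those of the directed cycle of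
length `p`. -/
theorem minorBelow_cycle {k : ℕ} (hp : (k + 1).Prime) : MinorBelow (k + 1) P2 (Cycle k) := by
  obtain ⟨Φ, hΦ⟩ := exists_equivariant (k + 1)
  refine ⟨fun n hn f => ⟨fun x : Fin n → ZMod (k + 1) => Φ (gf f.1 x), ?_⟩, ?_⟩
  · intro s x hx
    let F : (Fin n → Fin 2) → Fin 2 := f.1
    let x0 : Fin n → ZMod (k + 1) := fun i => x i (0 : Fin 2)
    let x1 : Fin n → ZMod (k + 1) := fun i => x i (1 : Fin 2)
    show Φ (gf F x1) = Φ (gf F x0) + 1
    have h1 : x1 = fun i => x0 i + 1 := funext fun i => hx i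
    have hf := f.2 () (fun _ => (![0, 1] : Fin 2 → Fin 2)) (fun _ => ⟨rfl, rfl⟩)
    have hf0 : F (fun _ => 0) = 0 := hf.1
    have hf1 : F (fun _ => 1) = 1 := hf.2
    rw [h1, gf_add, hΦ _ (free_gf hp hn F hf0 hf1 _)]
  · intro n m hn hm π f
    rfl

/-- A structure that has pp-constructions from infinitely many directed cycles of prime length has
a pp-construction from `P₂`. -/
theorem pp_of_infinite {C : Str} (h : {k : ℕ | (k + 1).Prime ∧ PPConstructs (Cycle k) C}.Infinite) :
    PPConstructs P2 C := by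
  apply pp_of_minorBelow
  intro N
  obtain ⟨k, ⟨hk, hkC⟩, hlt⟩ := h.exists_gt N
  exact MinorBelow.mono (by omega) ((minorBelow_cycle hk).trans (minorMap_of_pp hkC))

/-- `P₂` does not pp-construct any directed cycle of length at least two. -/
theorem not_P2_cycle {k : ℕ} (hk : k ≠ 0) : ¬ PPConstructs P2 (Cycle k) := by
  intro h
  obtain ⟨ξ, hξ⟩ := minorMap_of_pp h
  classical
  let G : (Fin (k + 1) → Fin 2) → Fin 2 := fun y =>
    if ∀ i, y i = (1 : Fin 2) then (1 : Fin 2) else (0 : Fin 2)
  let f : Pol P2 (k + 1) := ⟨G, by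
    apply isPol_P2
    · simp [G]
    · simp [G]⟩
  let π : Fin (k + 1) → Fin (k + 1) := fun i => i + 1
  have hπ : f.minor π = f := by
    apply Subtype.ext
    funext y
    have hiff : (∀ i : Fin (k + 1), (show Fin (k + 1) → Fin 2 from y) (i + 1) = (1 : Fin 2)) ↔
        ∀ i, (show Fin (k + 1) → Fin 2 from y) i = (1 : Fin 2) := by
      constructor
      · intro h i
        have := h (i - 1)
        rwa [sub_add_cancel] at this
      · intro h i
        exact h _
    show G (fun i => (show Fin (k + 1) → Fin 2 from y) (i + 1)) = G y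
    simp only [G]
    by_cases h : ∀ i, (show Fin (k + 1) → Fin 2 from y) i = (1 : Fin 2)
    · rw [if_pos h, if_pos (hiff.2 h)]
    · rw [if_neg h, if_neg (fun h' => h (hiff.1 h'))]
  have h1 : (ξ (k + 1) f).minor π = ξ (k + 1) f := by rw [← hξ, hπ]
  obtain ⟨F, hF⟩ : ∃ F : (Fin (k + 1) → ZMod (k + 1)) → ZMod (k + 1), F = (ξ (k + 1) f).1 :=
    ⟨_, rfl⟩
  have h2 : ∀ x : Fin (k + 1) → ZMod (k + 1), F (fun i => x (i + 1)) = F x := by
    intro x
    have := congrFun (congrArg (fun g : Pol (Cycle k) (k + 1) => g.1) h1) x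
    rw [hF]
    exact this
  have h3 : ∀ x : Fin (k + 1) → ZMod (k + 1), F (fun i => x i + 1) = F x + 1 := by
    intro x
    have := (ξ (k + 1) f).2 () (fun i => (![x i, x i + 1] : Fin 2 → ZMod (k + 1))) (fun i => rfl)
    rw [hF]
    exact this
  -- the identity
  let y : Fin (k + 1) → ZMod (k + 1) := fun i => i
  have h4 : (fun i => y (i + 1)) = fun i => y i + 1 := rfl
  have h5 := h2 y
  rw [h4, h3] at h5
  have h6 : (1 : ZMod (k + 1)) = 0 := by
    have : F y + 1 - F y = F y - F y := by rw [h5]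
    simpa using this
  have : Fact (1 < k + 1) := ⟨by omega⟩
  exact one_ne_zero h6

end Pool.Agent.KS6_1.PPO
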