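import Mathlib
import Pool.Agent.KS6_1.PPO.Cyc

/-!
# The number of obstructions to pp-constructibility from a finite structure
-/

set_option autoImplicit false

namespace Pool.Agent.KS6_1.PPO

open Pool.Agent.X235.PPC

theorem PPConstructs.refl (A : Str) : PPConstructs A A :=
  pp_iff_minorMap'.2 ⟨fun _ f => f, fun _ _ _ _ => rfl⟩

/-- `C` is a family of obstructions for `A`: it consists of structures with finite signatures, and a
structure `B` with a finite signature has no pp-construction from `A` if and only if it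
pp-constructs a member of the family. -/
def Obstructions (A : Str) {ι : Type} (C : ι → Str) : Prop :=
  (∀ i, (C i).FinSig) ∧
    ∀ B : Str, B.FinSig → (¬ PPConstructs A B ↔ ∃ i, PPConstructs B (C i))

/-- The same for all structures `B` with a finite domain, also those with infinitely many
relations. -/
def StrongObstructions (A : Str) {ι : Type} (C : ι → Str) : Prop :=
  (∀ i, (C i).FinSig) ∧ ∀ B : Str, ¬ PPConstructs A B ↔ ∃ i, PPConstructs B (C i)

theorem StrongObstructions.weak {A : Str} {ι : Type} {C : ι → Str}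
    (h : StrongObstructions A C) : Obstructions A C := ⟨h.1, fun B _ => h.2 B⟩

theorem infinite_of_obstructions {A : Str} (hA : ¬ PPConstructs P1 A)
    (hinf : {k : ℕ | (k + 1).Prime ∧ ¬ PPConstructs A (Cycle k)}.Infinite)
    {ι : Type} {C : ι → Str} (hC : Obstructions A C) : Infinite ι := by
  classical
  by_contra hfin
  rw [not_infinite_iff_finite] at hfin
  have hAP : PPConstructs A P2 := (dichotomy A).resolve_left hA
  have h1 : ∀ k : {k : ℕ | (k + 1).Prime ∧ ¬ PPConstructs A (Cycle k)},
      ∃ i, PPConstructs (Cycle k) (C i) := fun k =>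
    (hC.2 (Cycle k) (inferInstanceAs (Finite Unit))).1 k.2.2
  choose i hi using h1
  have := hinf.to_subtype
  obtain ⟨j, hj⟩ := Finite.exists_infinite_fiber i
  have hj' : (i ⁻¹' {j}).Infinite := Set.infinite_coe_iff.1 hj
  have h2 : {k : ℕ | (k + 1).Prime ∧ PPConstructs (Cycle k) (C j)}.Infinite := by
    have h3 : (Subtype.val '' (i ⁻¹' {j})).Infinite :=
      hj'.image (Subtype.val_injective.injOn)
    refine h3.mono ?_
    rintro _ ⟨k, hk, rfl⟩
    refine ⟨k.2.1, ?_⟩
    rw [← (show i k = j from hk)]
    exact hi k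
  have h4 : PPConstructs A (C j) := PPConstructs.trans hAP (pp_of_infinite h2)
  exact ((hC.2 (C j) (hC.1 j)).2 ⟨j, PPConstructs.refl _⟩) h4

theorem not_P2_prime {k : ℕ} (hk : (k + 1).Prime) : ¬ PPConstructs P2 (Cycle k) :=
  not_P2_cycle (by rintro rfl; exact Nat.not_prime_one hk)

theorem primes_infinite : {k : ℕ | (k + 1).Prime}.Infinite := by
  rw [Set.infinite_iff_exists_gt]
  intro n
  obtain ⟨p, hp, hpp⟩ := Nat.exists_infinite_primes (n + 2)
  exact ⟨p - 1, by
    show (p - 1 + 1).Prime
    rwa [Nat.sub_add_cancel hpp.one_le], by omega⟩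

theorem infinite_P2 : {k : ℕ | (k + 1).Prime ∧ ¬ PPConstructs P2 (Cycle k)}.Infinite :=
  primes_infinite.mono fun _ hk => ⟨hk, not_P2_prime hk⟩

theorem sequence_P2 : ∃ C : ℕ → Str, StrongObstructions P2 C := by
  obtain ⟨ι, hι, C, h1, h2⟩ := countable_obstructions P2
  have : Infinite ι := infinite_of_obstructions not_P1_P2 infinite_P2
    (StrongObstructions.weak ⟨h1, h2⟩)
  obtain ⟨e⟩ := nonempty_denumerable_iff.2 ⟨hι, this⟩
  refine ⟨fun n => C ((Denumerable.eqv ι).symm n), fun i => h1 _, fun B => ?_⟩
  rw [h2 B]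
  constructor
  · rintro ⟨i, hi⟩
    exact ⟨Denumerable.eqv ι i, by simpa using hi⟩
  · rintro ⟨n, hn⟩
    exact ⟨_, hn⟩

/-- A structure which does not pp-construct `P₁` has a nullary polymorphism. -/
theorem pol_zero_of_not {B : Str} (h : ¬ PPConstructs B P1) : Nonempty (Pol B 0) := by
  by_contra hn
  apply h
  apply pp_iff_minorMap'.2
  refine ⟨fun n f => ⟨fun _ => (0 : Fin 1), ?_⟩, fun n m π f => rfl⟩
  intro s x hx
  cases n with
  | zero => exact hn ⟨f⟩
  | succ n => exact hx 0

/-- A structure with a nullary polymorphism has a pp-construction from every structure with one. -/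
theorem pp_of_pol_zero {A B : Str} (h : Nonempty (Pol B 0)) : PPConstructs A B := by
  obtain ⟨b⟩ := h
  apply pp_iff_minorMap'.2
  refine ⟨fun n _ => ⟨fun _ => b.1 Fin.elim0, ?_⟩, fun n m π f => rfl⟩
  intro s x hx
  have h1 := b.2 s (fun i => i.elim0) (fun i => i.elim0)
  have h2 : (fun i : Fin 0 => (i.elim0 : B.dom)) = Fin.elim0 := by
    funext i; exact i.elim0
  have h3 : ∀ k : Fin (B.ar s), (fun i : Fin 0 => ((fun i => i.elim0 : Fin 0 → Fin (B.ar s) → B.dom) i k)) =
      Fin.elim0 := by
    intro k; funext i; exact i.elim0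
  simpa only [h3] using h1

/-- `P₁` and the structures that are pp-interconstructible with it have the single obstruction
`P₂`. -/
theorem obstruction_P1 {A : Str} (h1 : PPConstructs P1 A) (h2 : PPConstructs A P1) (B : Str) :
    ¬ PPConstructs A B ↔ PPConstructs B P2 := by
  constructor
  · intro h
    rcases dichotomy B with h3 | h3
    · exact absurd (PPConstructs.trans h2 h3) h
    · exact h3
  · intro h h3
    exact not_P1_P2 (PPConstructs.trans h1 (PPConstructs.trans h3 h))

/-- The other structures with a one-element core have the single obstruction `P₁`. -/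
theorem obstruction_loop {A : Str} (h1 : ¬ PPConstructs A P1) (B : Str) :
    ¬ PPConstructs A B ↔ PPConstructs B P1 := by
  constructor
  · intro h
    by_contra h2
    exact h (pp_of_pol_zero (pol_zero_of_not h2))
  · intro h h3
    exact h1 (PPConstructs.trans h3 h)

end Pool.Agent.KS6_1.PPO
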